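import Mathlib

/-!
# The path stabbing number does not have finite obstacle size

For every `N` there is a finite set `S` of points of the plane whose path stabbing number is at
least `5`, while every subset of `S` with at most `N` points has path stabbing number at most `4`.

`S` consists of the vertices of two concentric regular `m`-gons, aligned, of radii `1` and
`R = 1 + Θ(1/m²)`; the radius `R` is chosen so that for each `c` there is a line `ℓ c` cutting off
exactly the inner vertex `c` and the seven outer vertices `c-3, …, c+3`.  Summing over the `m`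
lines, every edge is stabbed at least twice, and an edge joining the two polygons at least six
times, so that every spanning path is stabbed at least `2 (2 m - 1) + 4 > 4 m` times in total.
On the other hand, if three consecutive locations are empty, then the path going around along the
outer polygon and coming back along the inner polygon is stabbed at most four times by every line.
-/

set_option autoImplicit false
set_option linter.unusedSectionVars false

open Finset

namespace Pool.Agent.Results.MP_da61b8_co.NoFiniteObstacle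

/-- The plane. -/
abbrev Plane := ℝ × ℝ

/-- `L` is a (straight) line of the plane. -/
def IsLine (L : Set Plane) : Prop :=
  ∃ a b c : ℝ, (a ≠ 0 ∨ b ≠ 0) ∧ L = {p | a * p.1 + b * p.2 = c}

/-- The line `L` stabs the closed segment `[p, q]`: their intersection is a single point, lying in
the relative interior of the segment. -/
def Stabs (L : Set Plane) (p q : Plane) : Prop :=
  ∃ x ∈ openSegment ℝ p q, L ∩ segment ℝ p q = {x}

open Classical in
/-- The number of edges of the path (a list of points) stabbed by `L`. -/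
noncomputable def stabCount (L : Set Plane) : List Plane → ℕ
  | [] => 0
  | [_] => 0
  | p :: q :: l => (if Stabs L p q then 1 else 0) + stabCount L (q :: l)

/-- A spanning path of `S`: an ordering of all points of `S`. -/
def IsSpanningPath (S : Finset Plane) (l : List Plane) : Prop :=
  l.Nodup ∧ ∀ p, p ∈ l ↔ p ∈ S

/-- The path stabbing number: the least `k` such that some spanning path of `S` has stabbing
number at most `k`. -/
noncomputable def pathStab (S : Finset Plane) : ℕ :=
  sInf {k | ∃ l, IsSpanningPath S l ∧ ∀ L, IsLine L → stabCount L l ≤ k}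

/-- `S` is an obstacle for the property `PATHSTAB < k`. -/
def IsObstacle (k : ℕ) (S : Finset Plane) : Prop :=
  k ≤ pathStab S ∧ ∀ T, T ⊂ S → pathStab T < k

/-- The path stabbing number has finite obstacle size. -/
def FiniteObstacleSize : Prop :=
  ∀ k : ℕ, 1 ≤ k → ∃ N : ℕ, ∀ S : Finset Plane, IsObstacle k S → S.card ≤ N

/-! ### Stabbing and sides -/

lemma stabs_symm {L : Set Plane} {p q : Plane} (h : Stabs L p q) : Stabs L q p := by
  obtain ⟨x, hx, h⟩ := h
  refine ⟨x, ?_, ?_⟩
  · rw [openSegment_symm]; exact hx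
  · rw [segment_symm]; exact h

lemma stabs_of_signs {a b c : ℝ} {p q : Plane} (hp : c < a * p.1 + b * p.2)
    (hq : a * q.1 + b * q.2 < c) : Stabs {x | a * x.1 + b * x.2 = c} p q := by
  set u := a * p.1 + b * p.2 - c with hu
  set v := c - (a * q.1 + b * q.2) with hv
  have hu0 : 0 < u := by simp only [hu]; linarith
  have hv0 : 0 < v := by simp only [hv]; linarith
  have huv : 0 < u + v := by linarith
  refine ⟨(v / (u + v)) • p + (u / (u + v)) • q, ⟨v / (u + v), u / (u + v), by positivity,
    by positivity, by field_simp; ring, rfl⟩, ?_⟩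
  ext y
  constructor
  · rintro ⟨hy, s, t, hs, ht, hst, rfl⟩
    have h1 : a * (s * p.1 + t * q.1) + b * (s * p.2 + t * q.2) = c := by
      simpa using hy
    have h2 : s * u = t * v := by
      simp only [hu, hv]
      have : s = 1 - t := by linarith
      subst this
      linarith
    have h3 : t = u / (u + v) := by
      rw [eq_div_iff huv.ne']
      have : s = 1 - t := by linarith
      subst this
      linarith
    have h4 : s = v / (u + v) := by
      rw [eq_div_iff huv.ne']
      have : t = 1 - s := by linarith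
      subst this
      linarith
    rw [h3, h4]
    rfl
  · rintro rfl
    refine ⟨?_, v / (u + v), u / (u + v), by positivity, by positivity,
      by field_simp; ring, rfl⟩
    change a * (v / (u + v) * p.1 + u / (u + v) * q.1) +
      b * (v / (u + v) * p.2 + u / (u + v) * q.2) = c
    have h5 : a * (v / (u + v) * p.1 + u / (u + v) * q.1) +
      b * (v / (u + v) * p.2 + u / (u + v) * q.2) =
      (v * (a * p.1 + b * p.2) + u * (a * q.1 + b * q.2)) / (u + v) := by
      field_simp
      ring
    rw [h5, div_eq_iff huv.ne']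
    have h6 : a * p.1 + b * p.2 = u + c := by simp only [hu]; ring
    have h7 : a * q.1 + b * q.2 = c - v := by simp only [hv]; ring
    rw [h6, h7]
    ring

/-- If a line stabs `[p, q]` then `p` and `q` are on different sides. -/
lemma not_iff_of_stabs {a b c : ℝ} {p q : Plane} (hpq : p ≠ q)
    (h : Stabs {x | a * x.1 + b * x.2 = c} p q) :
    ¬ (c ≤ a * p.1 + b * p.2 ↔ c ≤ a * q.1 + b * q.2) := by
  obtain ⟨x, ⟨s, t, hs, ht, hst, rfl⟩, h⟩ := h
  have hx : (s • p + t • q) ∈ ({x | a * x.1 + b * x.2 = c} ∩ segment ℝ p q : Set Plane) := by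
    rw [h]; exact rfl
  have h1 : a * (s * p.1 + t * q.1) + b * (s * p.2 + t * q.2) = c := by
    simpa using hx.1
  have h2 : s * (a * p.1 + b * p.2 - c) = t * (c - (a * q.1 + b * q.2)) := by
    have : s = 1 - t := by linarith
    subst this
    linarith
  have key : a * p.1 + b * p.2 ≠ c := by
    intro hp
    have hp' : p ∈ ({x | a * x.1 + b * x.2 = c} ∩ segment ℝ p q : Set Plane) :=
      ⟨hp, left_mem_segment ℝ p q⟩
    have hq : a * q.1 + b * q.2 = c := by
      rw [hp] at h2
      have h3 : t * (c - (a * q.1 + b * q.2)) = 0 := by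
        rw [← h2]; ring
      rcases mul_eq_zero.mp h3 with h4 | h4
      · exact absurd h4 ht.ne'
      · linarith
    have hq' : q ∈ ({x | a * x.1 + b * x.2 = c} ∩ segment ℝ p q : Set Plane) :=
      ⟨hq, right_mem_segment ℝ p q⟩
    rw [h] at hp' hq'
    exact hpq (hp'.trans hq'.symm)
  intro hiff
  by_cases hp : c ≤ a * p.1 + b * p.2
  · have hq := hiff.mp hp
    have h3 : c < a * p.1 + b * p.2 := lt_of_le_of_ne hp (Ne.symm key)
    have h4 : 0 < s * (a * p.1 + b * p.2 - c) := mul_pos hs (by linarith)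
    have h5 : t * (c - (a * q.1 + b * q.2)) ≤ 0 :=
      mul_nonpos_of_nonneg_of_nonpos ht.le (by linarith)
    linarith
  · have hq : ¬ c ≤ a * q.1 + b * q.2 := fun h' => hp (hiff.mpr h')
    push Not at hp hq
    have h4 : s * (a * p.1 + b * p.2 - c) < 0 := mul_neg_of_pos_of_neg hs (by linarith)
    have h5 : 0 < t * (c - (a * q.1 + b * q.2)) := mul_pos ht (by linarith)
    linarith

/-- From the stabbed edges one extracts an alternating sublist. -/
lemma exists_alt (L : Set Plane) (P : Plane → Prop) : ∀ (l : List Plane) (p : Plane),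
    (p :: l).IsChain (fun x y => Stabs L x y → ¬ (P x ↔ P y)) →
    ∃ (h : Plane) (t : List Plane), (h :: t).Sublist (p :: l) ∧
      stabCount L (p :: l) ≤ t.length ∧ (h :: t).IsChain (fun x y => ¬ (P x ↔ P y)) ∧
      (P h ↔ P p) := by
  intro l
  induction l with
  | nil =>
    intro p _
    exact ⟨p, [], List.Sublist.refl _, by simp [stabCount], by simp, Iff.rfl⟩
  | cons q l ih =>
    intro p hch
    rw [List.isChain_cons_cons] at hch
    obtain ⟨hpq, hch⟩ := hch
    obtain ⟨h, t, hsub, hlen, halt, hh⟩ := ih q hch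
    by_cases hP : P p ↔ P q
    · have hns : ¬ Stabs L p q := fun hs => hpq hs hP
      refine ⟨h, t, hsub.trans (List.sublist_cons_self _ _), ?_, halt, hh.trans hP.symm⟩
      simp only [stabCount, if_neg hns]
      omega
    · refine ⟨p, h :: t, hsub.cons_cons p, ?_, ?_, Iff.rfl⟩
      · simp only [stabCount, List.length_cons]
        split_ifs <;> omega
      · rw [List.isChain_cons_cons]
        exact ⟨fun hiff => hP (hiff.trans hh), halt⟩

lemma stabCount_le_length (L : Set Plane) : ∀ l : List Plane, stabCount L l ≤ l.length := by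
  intro l
  induction l with
  | nil => simp [stabCount]
  | cons p l ih =>
    cases l with
    | nil => simp [stabCount]
    | cons q l =>
      simp only [stabCount, List.length_cons] at ih ⊢
      split_ifs <;> omega

/-! ### Circle geometry -/

/-- The point at angle `x` on the circle of radius `s`. -/
noncomputable def pt (s x : ℝ) : Plane := (s * Real.cos x, s * Real.sin x)

/-- The orientation determinant of three points on the unit circle. -/
noncomputable def det (x y z : ℝ) : ℝ :=
  (Real.cos y - Real.cos x) * (Real.sin z - Real.sin x) -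
    (Real.cos z - Real.cos x) * (Real.sin y - Real.sin x)

lemma det_pos {x y z : ℝ} (h1 : x < y) (h2 : y < z) (h3 : z < x + 2 * Real.pi) :
    0 < det x y z := by
  have e : det x y z = 4 * Real.sin ((y - x) / 2) * Real.sin ((z - y) / 2) *
      Real.sin ((z - x) / 2) := by
    unfold det
    rw [Real.cos_sub_cos, Real.cos_sub_cos, Real.sin_sub_sin, Real.sin_sub_sin]
    have : (z - y) / 2 = (z + x) / 2 - (y + x) / 2 := by ring
    rw [this, Real.sin_sub]
    ring
  rw [e]
  have a1 : 0 < Real.sin ((y - x) / 2) := Real.sin_pos_of_pos_of_lt_pi (by linarith) (by linarith)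
  have a2 : 0 < Real.sin ((z - y) / 2) := Real.sin_pos_of_pos_of_lt_pi (by linarith) (by linarith)
  have a3 : 0 < Real.sin ((z - x) / 2) := Real.sin_pos_of_pos_of_lt_pi (by linarith) (by linarith)
  positivity

/-- No line separates alternately four points in cyclic order on a circle. -/
lemma no_alt_four {a b c s x0 x1 x2 x3 : ℝ} (h01 : x0 < x1) (h12 : x1 < x2)
    (h23 : x2 < x3) (h30 : x3 < x0 + 2 * Real.pi)
    (e01 : ¬ (c ≤ a * (pt s x0).1 + b * (pt s x0).2 ↔ c ≤ a * (pt s x1).1 + b * (pt s x1).2))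
    (e12 : ¬ (c ≤ a * (pt s x1).1 + b * (pt s x1).2 ↔ c ≤ a * (pt s x2).1 + b * (pt s x2).2))
    (e23 : ¬ (c ≤ a * (pt s x2).1 + b * (pt s x2).2 ↔ c ≤ a * (pt s x3).1 + b * (pt s x3).2)) :
    False := by
  have d0 : 0 < det x1 x2 x3 := det_pos h12 h23 (by linarith)
  have d1 : 0 < det x0 x2 x3 := det_pos (by linarith) h23 (by linarith)
  have d2 : 0 < det x0 x1 x3 := det_pos h01 (by linarith) (by linarith)
  have d3 : 0 < det x0 x1 x2 := det_pos h01 h12 (by linarith)
  have key : det x1 x2 x3 * (a * (pt s x0).1 + b * (pt s x0).2 - c) -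
      det x0 x2 x3 * (a * (pt s x1).1 + b * (pt s x1).2 - c) +
      det x0 x1 x3 * (a * (pt s x2).1 + b * (pt s x2).2 - c) -
      det x0 x1 x2 * (a * (pt s x3).1 + b * (pt s x3).2 - c) = 0 := by
    unfold det pt
    ring
  generalize a * (pt s x0).1 + b * (pt s x0).2 = v0 at *
  generalize a * (pt s x1).1 + b * (pt s x1).2 = v1 at *
  generalize a * (pt s x2).1 + b * (pt s x2).2 = v2 at *
  generalize a * (pt s x3).1 + b * (pt s x3).2 = v3 at *
  by_cases h0 : c ≤ v0
  · have h1 : ¬ c ≤ v1 := fun h => e01 ⟨fun _ => h, fun _ => h0⟩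
    have h2 : c ≤ v2 := by
      by_contra h; exact e12 ⟨fun h' => absurd h' h1, fun h' => absurd h' h⟩
    have h3 : ¬ c ≤ v3 := fun h => e23 ⟨fun _ => h, fun _ => h2⟩
    push Not at h1 h3
    have m0 : 0 ≤ det x1 x2 x3 * (v0 - c) := mul_nonneg d0.le (by linarith)
    have m1 : det x0 x2 x3 * (v1 - c) < 0 := mul_neg_of_pos_of_neg d1 (by linarith)
    have m2 : 0 ≤ det x0 x1 x3 * (v2 - c) := mul_nonneg d2.le (by linarith)
    have m3 : det x0 x1 x2 * (v3 - c) < 0 := mul_neg_of_pos_of_neg d3 (by linarith)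
    linarith
  · have h1 : c ≤ v1 := by
      by_contra h; exact e01 ⟨fun h' => absurd h' h0, fun h' => absurd h' h⟩
    have h2 : ¬ c ≤ v2 := fun h => e12 ⟨fun _ => h, fun _ => h1⟩
    have h3 : c ≤ v3 := by
      by_contra h; exact e23 ⟨fun h' => absurd h' h2, fun h' => absurd h' h⟩
    push Not at h0 h2
    have m0 : det x1 x2 x3 * (v0 - c) < 0 := mul_neg_of_pos_of_neg d0 (by linarith)
    have m1 : 0 ≤ det x0 x2 x3 * (v1 - c) := mul_nonneg d1.le (by linarith)
    have m2 : det x0 x1 x3 * (v2 - c) < 0 := mul_neg_of_pos_of_neg d2 (by linarith)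
    have m3 : 0 ≤ det x0 x1 x2 * (v3 - c) := mul_nonneg d3.le (by linarith)
    linarith

lemma cos_le_of_between {w y : ℝ} (hw : 0 ≤ w) (h1 : w ≤ y) (h2 : y ≤ 2 * Real.pi - w) :
    Real.cos y ≤ Real.cos w := by
  by_cases h : y ≤ Real.pi
  · exact Real.cos_le_cos_of_nonneg_of_le_pi hw h h1
  · have e : Real.cos y = Real.cos (2 * Real.pi - y) := by
      rw [Real.cos_two_pi_sub]
    rw [e]
    push Not at h
    exact Real.cos_le_cos_of_nonneg_of_le_pi hw (by linarith) (by linarith)

lemma le_cos_of_abs_le {w y : ℝ} (hw : w ≤ Real.pi) (h : |y| ≤ w) :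
    Real.cos w ≤ Real.cos y := by
  rw [← Real.cos_abs y]
  exact Real.cos_le_cos_of_nonneg_of_le_pi (abs_nonneg _) hw h

/-- The key comparison of arcs. -/
lemma key_arcs {s1 s2 r φ θ0 θ1 x y z u v t : ℝ} (hs1 : 0 < s1) (hs2 : 0 < s2) (hr : 0 ≤ r)
    (hxy : x < y) (hyz : y < z) (huv : u < v) (hvt : v < t)
    (hx0 : θ0 ≤ x) (hz1 : z ≤ θ1) (hu0 : θ0 ≤ u) (ht1 : t ≤ θ1)
    (cx : s1 * Real.cos (x - φ) < r) (cy : r < s1 * Real.cos (y - φ))
    (cz : s1 * Real.cos (z - φ) < r)
    (cu : r < s2 * Real.cos (u - φ)) (cv : s2 * Real.cos (v - φ) < r)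
    (ct : r < s2 * Real.cos (t - φ)) :
    2 * Real.pi - (θ1 - θ0) < Real.arccos (r / s2) - Real.arccos (r / s1) := by
  -- normalise the direction
  obtain ⟨n, hn⟩ : ∃ n : ℤ, |y - (φ + n * (2 * Real.pi))| ≤ Real.pi := by
    refine ⟨round ((y - φ) / (2 * Real.pi)), ?_⟩
    have h1 := abs_sub_round ((y - φ) / (2 * Real.pi))
    have h2 : y - (φ + (round ((y - φ) / (2 * Real.pi)) : ℝ) * (2 * Real.pi)) =
        ((y - φ) / (2 * Real.pi) - round ((y - φ) / (2 * Real.pi))) * (2 * Real.pi) := by
      have := Real.pi_ne_zero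
      field_simp
      ring
    rw [h2, abs_mul, abs_of_pos (by positivity : (0 : ℝ) < 2 * Real.pi)]
    have := Real.pi_pos
    nlinarith
  set ψ := φ + n * (2 * Real.pi) with hψ
  have hcos : ∀ w : ℝ, Real.cos (w - φ) = Real.cos (w - ψ) := by
    intro w
    have : w - ψ = (w - φ) - n * (2 * Real.pi) := by rw [hψ]; ring
    rw [this, Real.cos_sub_int_mul_two_pi]
  rw [hcos] at cx cy cz cu cv ct
  set w1 := Real.arccos (r / s1) with hw1
  set w2 := Real.arccos (r / s2) with hw2
  have hr1 : r / s1 ≤ 1 := by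
    rw [div_le_one hs1]
    nlinarith [Real.cos_le_one (y - ψ)]
  have hr2 : r / s2 ≤ 1 := by
    rw [div_le_one hs2]
    nlinarith [Real.cos_le_one (u - ψ)]
  have hr1' : 0 ≤ r / s1 := by positivity
  have hr2' : 0 ≤ r / s2 := by positivity
  have c1 : Real.cos w1 = r / s1 := Real.cos_arccos (by linarith) hr1
  have c2 : Real.cos w2 = r / s2 := Real.cos_arccos (by linarith) hr2
  have w1n : 0 ≤ w1 := Real.arccos_nonneg _
  have w2n : 0 ≤ w2 := Real.arccos_nonneg _
  have w1p : w1 ≤ Real.pi := Real.arccos_le_pi _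
  have w2p : w2 ≤ Real.pi := Real.arccos_le_pi _
  have cx' : Real.cos (x - ψ) < Real.cos w1 := by rw [c1, lt_div_iff₀ hs1]; linarith
  have cy' : Real.cos w1 < Real.cos (y - ψ) := by rw [c1, div_lt_iff₀ hs1]; linarith
  have cz' : Real.cos (z - ψ) < Real.cos w1 := by rw [c1, lt_div_iff₀ hs1]; linarith
  have cu' : Real.cos w2 < Real.cos (u - ψ) := by rw [c2, div_lt_iff₀ hs2]; linarith
  have cv' : Real.cos (v - ψ) < Real.cos w2 := by rw [c2, lt_div_iff₀ hs2]; linarith
  have ct' : Real.cos w2 < Real.cos (t - ψ) := by rw [c2, div_lt_iff₀ hs2]; linarith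
  have hy : |y - ψ| < w1 := by
    by_contra h
    push Not at h
    have := Real.cos_le_cos_of_nonneg_of_le_pi w1n hn h
    rw [Real.cos_abs] at this
    linarith
  rw [abs_lt] at hy
  have hx : x - ψ < - w1 := by
    by_contra h
    push Not at h
    have := le_cos_of_abs_le w1p (abs_le.mpr ⟨h, by linarith⟩ : |x - ψ| ≤ w1)
    linarith
  have hz : w1 < z - ψ := by
    by_contra h
    push Not at h
    have := le_cos_of_abs_le w1p (abs_le.mpr ⟨by linarith, h⟩ : |z - ψ| ≤ w1)
    linarith
  have hv : w2 < |v - ψ| := by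
    by_contra h
    push Not at h
    have := le_cos_of_abs_le w2p h
    linarith
  rcases lt_abs.mp hv with h | h
  · have ht : 2 * Real.pi - w2 < t - ψ := by
      by_contra h'
      push Not at h'
      have := cos_le_of_between w2n (by linarith) h'
      linarith
    linarith
  · have hu : 2 * Real.pi - w2 < ψ - u := by
      by_contra h'
      push Not at h'
      have := cos_le_of_between w2n (by linarith) h'
      rw [← Real.cos_neg (ψ - u), neg_sub] at this
      linarith
    linarith

/-- A line does not separate strictly `{O u, O t, I y}` from `{O v, I x, I z}`. -/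
lemma no_sep_strict {a b c R D θ0 θ1 x y z u v t : ℝ} (hR : 1 < R) (hD0 : 0 ≤ D)
    (hD : R * Real.cos D < 1)
    (hθ : θ1 - θ0 ≤ 2 * Real.pi - D)
    (hxy : x < y) (hyz : y < z) (huv : u < v) (hvt : v < t)
    (hx0 : θ0 ≤ x) (hz1 : z ≤ θ1) (hu0 : θ0 ≤ u) (ht1 : t ≤ θ1)
    (cu : c < a * (pt R u).1 + b * (pt R u).2) (ct : c < a * (pt R t).1 + b * (pt R t).2)
    (cy : c < a * (pt 1 y).1 + b * (pt 1 y).2)
    (cv : a * (pt R v).1 + b * (pt R v).2 < c)
    (cx : a * (pt 1 x).1 + b * (pt 1 x).2 < c)
    (cz : a * (pt 1 z).1 + b * (pt 1 z).2 < c) : False := by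
  obtain ⟨ν, φ, hν0, ha, hb⟩ : ∃ ν φ : ℝ, 0 ≤ ν ∧ a = ν * Real.cos φ ∧ b = ν * Real.sin φ := by
    refine ⟨‖(⟨a, b⟩ : ℂ)‖, Complex.arg ⟨a, b⟩, norm_nonneg _, ?_, ?_⟩
    · rw [Complex.norm_mul_cos_arg]
    · rw [Complex.norm_mul_sin_arg]
  have hval : ∀ s w : ℝ, a * (pt s w).1 + b * (pt s w).2 = ν * (s * Real.cos (w - φ)) := by
    intro s w
    rw [ha, hb, Real.cos_sub]
    unfold pt
    ring
  rw [hval] at cu ct cy cv cx cz
  have hν : 0 < ν := by
    rcases hν0.lt_or_eq with h | h
    · exact h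
    · rw [← h] at cy cv
      linarith
  have hD1 : 0 < D := by
    rcases hD0.lt_or_eq with h | h
    · exact h
    · rw [← h, Real.cos_zero] at hD
      linarith
  set r := c / ν with hr
  have hc : c = ν * r := by rw [hr]; field_simp
  rw [hc] at cu ct cy cv cx cz
  replace cu := lt_of_mul_lt_mul_left cu hν0
  replace ct := lt_of_mul_lt_mul_left ct hν0
  replace cy := lt_of_mul_lt_mul_left cy hν0
  replace cv := lt_of_mul_lt_mul_left cv hν0
  replace cx := lt_of_mul_lt_mul_left cx hν0
  replace cz := lt_of_mul_lt_mul_left cz hν0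
  by_cases hr0 : 0 ≤ r
  · have key := key_arcs (s1 := 1) (s2 := R) one_pos (by linarith) hr0 hxy hyz huv hvt hx0 hz1
      hu0 ht1 cx cy cz cu cv ct
    rw [div_one] at key
    have hr1 : r < 1 := by
      have := Real.cos_le_one (y - φ)
      linarith
    have hR0 : 0 < R := by linarith
    have hrR : r / R ≤ r := div_le_self hr0 hR.le
    have hrR0 : 0 ≤ r / R := by positivity
    set E := Real.arccos (r / R) - Real.arccos r with hE
    have hDE : D < E := by linarith
    have hEpi : E ≤ Real.pi := by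
      have h1 := Real.arccos_le_pi (r / R)
      have h2 := Real.arccos_nonneg r
      linarith
    have h1 : Real.cos E ≤ Real.cos D :=
      Real.cos_le_cos_of_nonneg_of_le_pi hD0 hEpi hDE.le
    have h2 : Real.cos E = r / R * r + Real.sqrt (1 - (r / R) ^ 2) * Real.sqrt (1 - r ^ 2) := by
      rw [hE, Real.cos_sub, Real.cos_arccos (by linarith) (by linarith),
        Real.cos_arccos (by linarith) hr1.le, Real.sin_arccos, Real.sin_arccos]
    have h3 : Real.sqrt (1 - r ^ 2) ≤ Real.sqrt (1 - (r / R) ^ 2) := by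
      apply Real.sqrt_le_sqrt
      nlinarith
    have h4 : 1 - r ^ 2 ≤ Real.sqrt (1 - (r / R) ^ 2) * Real.sqrt (1 - r ^ 2) := by
      calc 1 - r ^ 2 = Real.sqrt (1 - r ^ 2) * Real.sqrt (1 - r ^ 2) :=
            (Real.mul_self_sqrt (by nlinarith)).symm
        _ ≤ _ := mul_le_mul_of_nonneg_right h3 (Real.sqrt_nonneg _)
    have h5 : 1 / R ≤ r / R * r + (1 - r ^ 2) := by
      rw [div_le_iff₀ hR0]
      have : (r / R * r + (1 - r ^ 2)) * R = r ^ 2 + (1 - r ^ 2) * R := by
        field_simp
      rw [this]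
      have h7 : 0 ≤ (1 - r ^ 2) * (R - 1) := mul_nonneg (by nlinarith) (by linarith)
      linarith
    have h6 : 1 / R ≤ Real.cos D := by linarith
    rw [div_le_iff₀ hR0] at h6
    linarith
  · push Not at hr0
    have hcos : ∀ w : ℝ, Real.cos (w - (φ + Real.pi)) = - Real.cos (w - φ) := by
      intro w
      rw [show w - (φ + Real.pi) = (w - φ) - Real.pi by ring, Real.cos_sub_pi]
    have key := key_arcs (s1 := R) (s2 := 1) (r := -r) (φ := φ + Real.pi) (by linarith) one_pos
      (by linarith) huv hvt hxy hyz hu0 ht1 hx0 hz1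
      (by rw [hcos]; linarith) (by rw [hcos]; linarith) (by rw [hcos]; linarith)
      (by rw [hcos]; linarith) (by rw [hcos]; linarith) (by rw [hcos]; linarith)
    have h1 : Real.arccos (-r / 1) ≤ Real.arccos (-r / R) := by
      apply Real.arccos_le_arccos
      rw [div_one]
      exact div_le_self (by linarith) hR.le
    linarith

/-- The six term alternation is impossible. -/
lemma no_alt_six {a b c R D θ0 θ1 x y z u v t : ℝ} (hR : 1 < R) (hD0 : 0 ≤ D)
    (hD : R * Real.cos D < 1)
    (hθ : θ1 - θ0 ≤ 2 * Real.pi - D)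
    (hxy : x < y) (hyz : y < z) (huv : u < v) (hvt : v < t)
    (hx0 : θ0 ≤ x) (hz1 : z ≤ θ1) (hu0 : θ0 ≤ u) (ht1 : t ≤ θ1)
    (e1 : ¬ (c ≤ a * (pt R u).1 + b * (pt R u).2 ↔ c ≤ a * (pt R v).1 + b * (pt R v).2))
    (e2 : ¬ (c ≤ a * (pt R v).1 + b * (pt R v).2 ↔ c ≤ a * (pt R t).1 + b * (pt R t).2))
    (e3 : ¬ (c ≤ a * (pt R t).1 + b * (pt R t).2 ↔ c ≤ a * (pt 1 z).1 + b * (pt 1 z).2))
    (e4 : ¬ (c ≤ a * (pt 1 z).1 + b * (pt 1 z).2 ↔ c ≤ a * (pt 1 y).1 + b * (pt 1 y).2))
    (e5 : ¬ (c ≤ a * (pt 1 y).1 + b * (pt 1 y).2 ↔ c ≤ a * (pt 1 x).1 + b * (pt 1 x).2)) :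
    False := by
  have main := fun (a b c : ℝ) => no_sep_strict (a := a) (b := b) (c := c) hR hD0 hD hθ
    hxy hyz huv hvt hx0 hz1 hu0 ht1
  have m1 := main a b
  have m2 := main (-a) (-b)
  clear main
  simp only [neg_mul, ← neg_add] at m2
  generalize a * (pt R u).1 + b * (pt R u).2 = vu at *
  generalize a * (pt R v).1 + b * (pt R v).2 = vv at *
  generalize a * (pt R t).1 + b * (pt R t).2 = vt at *
  generalize a * (pt 1 x).1 + b * (pt 1 x).2 = vx at *
  generalize a * (pt 1 y).1 + b * (pt 1 y).2 = vy at *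
  generalize a * (pt 1 z).1 + b * (pt 1 z).2 = vz at *
  by_cases hu : c ≤ vu
  · have hv : ¬ c ≤ vv := fun h => e1 ⟨fun _ => h, fun _ => hu⟩
    have ht : c ≤ vt := by
      by_contra h; exact e2 ⟨fun h' => absurd h' hv, fun h' => absurd h' h⟩
    have hz : ¬ c ≤ vz := fun h => e3 ⟨fun _ => h, fun _ => ht⟩
    have hy : c ≤ vy := by
      by_contra h; exact e4 ⟨fun h' => absurd h' hz, fun h' => absurd h' h⟩
    have hx : ¬ c ≤ vx := fun h => e5 ⟨fun _ => h, fun _ => hy⟩
    push Not at hv hz hx
    have hmax : max vv (max vz vx) < c := max_lt hv (max_lt hz hx)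
    have l1 : vv ≤ max vv (max vz vx) := le_max_left _ _
    have l2 : vz ≤ max vv (max vz vx) := (le_max_left _ _).trans (le_max_right _ _)
    have l3 : vx ≤ max vv (max vz vx) := (le_max_right _ _).trans (le_max_right _ _)
    exact m1 ((max vv (max vz vx) + c) / 2) (by linarith) (by linarith) (by linarith)
      (by linarith) (by linarith) (by linarith)
  · have hv : c ≤ vv := by
      by_contra h; exact e1 ⟨fun h' => absurd h' hu, fun h' => absurd h' h⟩
    have ht : ¬ c ≤ vt := fun h => e2 ⟨fun _ => h, fun _ => hv⟩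
    have hz : c ≤ vz := by
      by_contra h; exact e3 ⟨fun h' => absurd h' ht, fun h' => absurd h' h⟩
    have hy : ¬ c ≤ vy := fun h => e4 ⟨fun _ => h, fun _ => hz⟩
    have hx : c ≤ vx := by
      by_contra h; exact e5 ⟨fun h' => absurd h' hy, fun h' => absurd h' h⟩
    push Not at hu ht hy
    have hmax : max vu (max vt vy) < c := max_lt hu (max_lt ht hy)
    have l1 : vu ≤ max vu (max vt vy) := le_max_left _ _
    have l2 : vt ≤ max vu (max vt vy) := (le_max_left _ _).trans (le_max_right _ _)
    have l3 : vy ≤ max vu (max vt vy) := (le_max_right _ _).trans (le_max_right _ _)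
    exact m2 (-((max vu (max vt vy) + c) / 2)) (by linarith) (by linarith) (by linarith)
      (by linarith) (by linarith) (by linarith)

/-! ### The construction -/

section construction

variable {m : ℕ} [NeZero m]

/-- The angle of location `i`. -/
noncomputable def ang (i : ZMod m) : ℝ := (i.val : ℝ) * (2 * Real.pi / m)

/-- The radius. -/
def rad (R : ℝ) (b : Bool) : ℝ := if b then R else 1

/-- The points of the construction. -/
noncomputable def pos (R : ℝ) (x : Bool × ZMod m) : Plane := pt (rad R x.1) (ang x.2)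

/-- The cutting lines. -/
def cut (ρ : ℝ) (c : ZMod m) : Set Plane :=
  {p | Real.cos (ang c) * p.1 + Real.sin (ang c) * p.2 = ρ}

lemma cos_int (k : ℤ) (x : ℝ) :
    Real.cos (x + (k : ℝ) * (2 * Real.pi / m)) = Real.cos (x + ang (k : ZMod m)) ∧
    Real.sin (x + (k : ℝ) * (2 * Real.pi / m)) = Real.sin (x + ang (k : ZMod m)) := by
  have hm : (m : ℝ) ≠ 0 := by exact_mod_cast NeZero.ne m
  have h1 : (((k : ZMod m).val : ℤ) : ℝ) = ((k % m : ℤ) : ℝ) := by
    rw [ZMod.val_intCast]
  have h2 : (k : ℝ) = ((k % m : ℤ) : ℝ) + (m : ℝ) * ((k / m : ℤ) : ℝ) := by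
    exact_mod_cast (Int.emod_add_mul_ediv k m).symm
  have h3 : (k : ℝ) * (2 * Real.pi / m) =
      ang (k : ZMod m) + ((k / m : ℤ) : ℝ) * (2 * Real.pi) := by
    unfold ang
    rw [h2]
    have h4 : (((k : ZMod m).val : ℕ) : ℝ) = ((k % m : ℤ) : ℝ) := by
      rw [← h1]; norm_cast
    rw [h4]
    field_simp
  rw [h3, ← add_assoc]
  exact ⟨Real.cos_add_int_mul_two_pi _ _, Real.sin_add_int_mul_two_pi _ _⟩

lemma cos_ang_sub (i c : ZMod m) : Real.cos (ang i - ang c) = Real.cos (ang (i - c)) := by
  have h1 : ang i - ang c = 0 + (((i.val : ℤ) - (c.val : ℤ) : ℤ) : ℝ) * (2 * Real.pi / m) := by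
    unfold ang
    push_cast
    ring
  rw [h1, (cos_int _ _).1, zero_add]
  congr 2
  push_cast
  rw [ZMod.natCast_zmod_val, ZMod.natCast_zmod_val]

lemma cut_val (R : ℝ) (x : Bool × ZMod m) (c : ZMod m) :
    Real.cos (ang c) * (pos R x).1 + Real.sin (ang c) * (pos R x).2 =
      rad R x.1 * Real.cos (ang (x.2 - c)) := by
  rw [← cos_ang_sub, Real.cos_sub]
  unfold pos pt
  ring

lemma cos_val_le {j v : ℕ} (h1 : j ≤ v) (h2 : v + j ≤ m) :
    Real.cos ((v : ℝ) * (2 * Real.pi / m)) ≤ Real.cos ((j : ℝ) * (2 * Real.pi / m)) := by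
  have hm : (0 : ℝ) < m := by exact_mod_cast Nat.pos_of_ne_zero (NeZero.ne m)
  have hd : 0 ≤ 2 * Real.pi / m := by have := Real.pi_pos; positivity
  apply cos_le_of_between (by positivity)
  · apply mul_le_mul_of_nonneg_right _ hd
    exact_mod_cast h1
  · have h3 : (v : ℝ) + j ≤ m := by exact_mod_cast h2
    have h4 : ((v : ℝ) + j) * (2 * Real.pi / m) ≤ m * (2 * Real.pi / m) :=
      mul_le_mul_of_nonneg_right h3 hd
    have h5 : (m : ℝ) * (2 * Real.pi / m) = 2 * Real.pi := by field_simp
    linarith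

/-- The indices of the lines cutting off a point. -/
noncomputable def cutSet (x : Bool × ZMod m) : Finset (ZMod m) :=
  if x.1 then (Finset.Icc (-3 : ℤ) 3).image (fun k : ℤ => x.2 + (k : ZMod m)) else {x.2}

lemma int_eq_of_cast {k l : ℤ} (h : (k : ZMod m) = (l : ZMod m)) (h1 : |k - l| < m) : k = l := by
  rw [ZMod.intCast_eq_intCast_iff_dvd_sub] at h
  have h2 : |l - k| < m := by rw [abs_sub_comm]; exact h1
  have := Int.eq_zero_of_abs_lt_dvd h h2
  omega

lemma card_cutSet_true (hm : 17 ≤ m) (i : ZMod m) : (cutSet (true, i)).card = 7 := by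
  unfold cutSet
  simp only [if_true]
  rw [Finset.card_image_of_injOn]
  · simp
  · intro k hk l hl h
    simp only [Finset.coe_Icc, Set.mem_Icc] at hk hl
    apply int_eq_of_cast (m := m) (add_left_cancel h)
    rw [abs_lt]
    omega

/-- The lines separating two points. -/
noncomputable def sepSet (x y : Bool × ZMod m) : Finset (ZMod m) :=
  Finset.univ.filter (fun c => ¬ (c ∈ cutSet x ↔ c ∈ cutSet y))

lemma sepSet_comm (x y : Bool × ZMod m) : sepSet x y = sepSet y x := by
  unfold sepSet
  ext c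
  simp only [Finset.mem_filter, Finset.mem_univ, true_and]
  tauto

lemma six_le_sep (hm : 17 ≤ m) (i j : ZMod m) : 6 ≤ (sepSet (true, i) (false, j)).card := by
  have h1 : cutSet (true, i) \ cutSet (false, j) ⊆ sepSet (true, i) (false, j) := by
    intro c hc
    rw [Finset.mem_sdiff] at hc
    unfold sepSet
    simp only [Finset.mem_filter, Finset.mem_univ, true_and]
    tauto
  have h2 := Finset.le_card_sdiff (cutSet (false, j)) (cutSet (true, i))
  have h3 : (cutSet (false, j)).card = 1 := by
    unfold cutSet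
    simp
  have h4 := card_cutSet_true hm i
  have h5 := Finset.card_le_card h1
  omega

lemma two_le_sep_of {x y : Bool × ZMod m} {c d : ZMod m} (h1 : c ∈ cutSet x) (h2 : c ∉ cutSet y)
    (h3 : d ∈ cutSet y) (h4 : d ∉ cutSet x) : 2 ≤ (sepSet x y).card := by
  have hcd : c ≠ d := by
    rintro rfl
    exact h2 h3
  have h5 : ({c, d} : Finset (ZMod m)) ⊆ sepSet x y := by
    intro e he
    unfold sepSet
    simp only [Finset.mem_filter, Finset.mem_univ, true_and]
    rw [Finset.mem_insert, Finset.mem_singleton] at he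
    rcases he with rfl | rfl
    · tauto
    · tauto
  have h6 := Finset.card_le_card h5
  rw [Finset.card_pair hcd] at h6
  exact h6

lemma exists_mem_not_mem (hm : 17 ≤ m) {i j : ZMod m} (hij : i ≠ j) :
    ∃ c ∈ cutSet (true, i), c ∉ cutSet (true, j) := by
  by_contra hcon
  push Not at hcon
  have h1 : i + ((-3 : ℤ) : ZMod m) ∈ cutSet (true, i) := by
    unfold cutSet
    simp only [if_true, Finset.mem_image]
    exact ⟨-3, by simp, rfl⟩
  have h2 : i + ((3 : ℤ) : ZMod m) ∈ cutSet (true, i) := by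
    unfold cutSet
    simp only [if_true, Finset.mem_image]
    exact ⟨3, by simp, rfl⟩
  have h3 := hcon _ h1
  have h4 := hcon _ h2
  unfold cutSet at h3 h4
  simp only [if_true, Finset.mem_image, Finset.mem_Icc] at h3 h4
  obtain ⟨k, hk, h3⟩ := h3
  obtain ⟨l, hl, h4⟩ := h4
  have h5 : ((l - k : ℤ) : ZMod m) = ((6 : ℤ) : ZMod m) := by
    have : ((l : ℤ) : ZMod m) - ((k : ℤ) : ZMod m) = ((3 : ℤ) : ZMod m) - ((-3 : ℤ) : ZMod m) := by
      linear_combination h4 - h3
    push_cast at this ⊢
    rw [this]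
    ring
  have h6 : l - k = 6 := by
    apply int_eq_of_cast h5
    rw [abs_lt]
    omega
  have h7 : l = 3 := by omega
  subst h7
  exact hij (add_right_cancel h4).symm

lemma two_le_sep (hm : 17 ≤ m) {x y : Bool × ZMod m} (hxy : x ≠ y) :
    2 ≤ (sepSet x y).card := by
  obtain ⟨b, i⟩ := x
  obtain ⟨b', j⟩ := y
  cases b <;> cases b'
  · have hij : i ≠ j := by
      rintro rfl; exact hxy rfl
    have h1 : i ∈ cutSet (false, i) := by simp [cutSet]
    have h2 : j ∈ cutSet (false, j) := by simp [cutSet]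
    have h3 : i ∉ cutSet (false, j) := by simp [cutSet, hij]
    have h4 : j ∉ cutSet (false, i) := by simp [cutSet, hij.symm]
    exact two_le_sep_of h1 h3 h2 h4
  · rw [sepSet_comm]
    have := six_le_sep hm j i
    omega
  · have := six_le_sep hm i j
    omega
  · have hij : i ≠ j := by
      rintro rfl; exact hxy rfl
    obtain ⟨c, h1, h2⟩ := exists_mem_not_mem hm hij
    obtain ⟨d, h3, h4⟩ := exists_mem_not_mem hm hij.symm
    exact two_le_sep_of h1 h2 h3 h4

lemma six_le_sep' (hm : 17 ≤ m) {x y : Bool × ZMod m} (hxy : x.1 ≠ y.1) :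
    6 ≤ (sepSet x y).card := by
  obtain ⟨b, i⟩ := x
  obtain ⟨b', j⟩ := y
  cases b <;> cases b'
  · exact absurd rfl hxy
  · rw [sepSet_comm]
    exact six_le_sep hm j i
  · exact six_le_sep hm i j
  · exact absurd rfl hxy

/-- The conditions on the two parameters. -/
structure Good (m : ℕ) (R ρ : ℝ) : Prop where
  h1 : Real.cos (2 * Real.pi / m) < ρ
  h2 : ρ < 1
  h3 : ρ < R * Real.cos (3 * (2 * Real.pi / m))
  h4 : R * Real.cos (4 * (2 * Real.pi / m)) < ρ
  h5 : 1 < R

lemma exists_good (hm : 17 ≤ m) : ∃ R ρ : ℝ, Good m R ρ := by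
  have hm' : (17 : ℝ) ≤ m := by exact_mod_cast hm
  have hm0 : (0 : ℝ) < m := by linarith
  set d := 2 * Real.pi / m with hd
  have hd0 : 0 < d := by have := Real.pi_pos; positivity
  have hd1 : d * 17 ≤ 2 * Real.pi := by
    have h : d * m = 2 * Real.pi := by rw [hd]; field_simp
    nlinarith
  have hpi := Real.pi_pos
  have c1 : Real.cos d < 1 := by
    rw [← Real.cos_zero]
    exact Real.cos_lt_cos_of_nonneg_of_le_pi le_rfl (by linarith) hd0
  have c3 : Real.cos (3 * d) < Real.cos d :=
    Real.cos_lt_cos_of_nonneg_of_le_pi hd0.le (by linarith) (by linarith)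
  have c4 : Real.cos (4 * d) < Real.cos (3 * d) :=
    Real.cos_lt_cos_of_nonneg_of_le_pi (by linarith) (by linarith) (by linarith)
  have c5 : 0 < Real.cos (4 * d) :=
    Real.cos_pos_of_mem_Ioo ⟨by linarith, by linarith⟩
  have hs : 0 < Real.cos (3 * d) + Real.cos (4 * d) := by linarith
  have hρ : 0 < (1 + Real.cos d) / 2 := by linarith
  refine ⟨2 * ((1 + Real.cos d) / 2) / (Real.cos (3 * d) + Real.cos (4 * d)),
    (1 + Real.cos d) / 2, ?_, ?_, ?_, ?_, ?_⟩
  · change Real.cos d < _
    linarith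
  · linarith
  · change _ < _ * Real.cos (3 * d)
    rw [div_mul_eq_mul_div, lt_div_iff₀ hs]
    nlinarith
  · change _ * Real.cos (4 * d) < _
    rw [div_mul_eq_mul_div, div_lt_iff₀ hs]
    nlinarith
  · rw [lt_div_iff₀ hs]
    linarith

variable {R ρ : ℝ}

lemma lt_of_mem_cutSet (hm : 17 ≤ m) (hg : Good m R ρ) {x : Bool × ZMod m} {c : ZMod m}
    (h : c ∈ cutSet x) :
    ρ < Real.cos (ang c) * (pos R x).1 + Real.sin (ang c) * (pos R x).2 := by
  rw [cut_val]
  obtain ⟨b, i⟩ := x
  cases b
  · simp only [cutSet, Bool.false_eq_true, if_false, Finset.mem_singleton] at h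
    subst h
    simp only [rad, Bool.false_eq_true, if_false, sub_self, one_mul]
    have : ang (0 : ZMod m) = 0 := by unfold ang; simp
    rw [this, Real.cos_zero]
    exact hg.h2
  · simp only [cutSet, if_true, Finset.mem_image, Finset.mem_Icc] at h
    obtain ⟨k, hk, rfl⟩ := h
    simp only [rad, if_true]
    have e1 : i - (i + (k : ZMod m)) = ((-k : ℤ) : ZMod m) := by push_cast; ring
    rw [e1]
    have e2 := (cos_int (m := m) (-k) 0).1
    rw [zero_add, zero_add] at e2
    rw [← e2]
    refine lt_of_lt_of_le hg.h3 ?_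
    apply mul_le_mul_of_nonneg_left _ (by linarith [hg.h5])
    have hm' : (17 : ℝ) ≤ m := by exact_mod_cast hm
    have hd0 : 0 < 2 * Real.pi / m := by have := Real.pi_pos; positivity
    have hd1 : 2 * Real.pi / m * 17 ≤ 2 * Real.pi := by
      have h : 2 * Real.pi / m * m = 2 * Real.pi := by field_simp
      nlinarith
    apply le_cos_of_abs_le
    · linarith
    · rw [abs_mul, abs_of_pos hd0]
      apply mul_le_mul_of_nonneg_right _ hd0.le
      have : |(-k : ℤ)| ≤ 3 := by rw [abs_le]; omega
      exact_mod_cast this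

lemma lt_of_not_mem_cutSet (hg : Good m R ρ) {x : Bool × ZMod m} {c : ZMod m}
    (h : c ∉ cutSet x) :
    Real.cos (ang c) * (pos R x).1 + Real.sin (ang c) * (pos R x).2 < ρ := by
  rw [cut_val]
  obtain ⟨b, i⟩ := x
  have hv : (i - c).val < m := ZMod.val_lt _
  have hvc : (((i - c).val : ℕ) : ZMod m) = i - c := ZMod.natCast_zmod_val _
  cases b
  · simp only [cutSet, Bool.false_eq_true, if_false, Finset.mem_singleton] at h
    simp only [rad, Bool.false_eq_true, if_false, one_mul]
    have h0 : (i - c).val ≠ 0 := by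
      intro h0
      rw [ZMod.val_eq_zero] at h0
      exact h (sub_eq_zero.mp h0).symm
    have := cos_val_le (m := m) (j := 1) (v := (i - c).val) (by omega) (by omega)
    rw [Nat.cast_one, one_mul] at this
    exact lt_of_le_of_lt this hg.h1
  · simp only [cutSet, if_true, Finset.mem_image, Finset.mem_Icc, not_exists, not_and] at h
    simp only [rad, if_true]
    have h1 : 4 ≤ (i - c).val := by
      by_contra hlt
      push Not at hlt
      apply h (-((i - c).val : ℤ)) (by omega)
      push_cast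
      rw [hvc]
      ring
    have h2 : (i - c).val + 4 ≤ m := by
      by_contra hlt
      push Not at hlt
      apply h ((m : ℤ) - ((i - c).val : ℤ)) (by omega)
      push_cast
      rw [hvc, ZMod.natCast_self]
      ring
    have := cos_val_le (m := m) (j := 4) (v := (i - c).val) h1 h2
    have h3 : R * Real.cos (ang (i - c)) ≤ R * Real.cos (4 * (2 * Real.pi / m)) := by
      apply mul_le_mul_of_nonneg_left _ (by linarith [hg.h5])
      exact_mod_cast this
    exact lt_of_le_of_lt h3 hg.h4

lemma pos_injective (hm : 17 ≤ m) (hg : Good m R ρ) :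
    Function.Injective (pos R : Bool × ZMod m → Plane) := by
  intro x y hxy
  by_contra hne
  have h2 := two_le_sep hm hne
  obtain ⟨c, hc⟩ : (sepSet x y).Nonempty := by
    rw [← Finset.card_pos]; omega
  unfold sepSet at hc
  simp only [Finset.mem_filter, Finset.mem_univ, true_and] at hc
  by_cases h : c ∈ cutSet x
  · have h' : c ∉ cutSet y := fun h' => hc ⟨fun _ => h', fun _ => h⟩
    have a1 := lt_of_mem_cutSet hm hg h
    have a2 := lt_of_not_mem_cutSet hg h'
    rw [hxy] at a1
    linarith
  · have h' : c ∈ cutSet y := by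
      by_contra h'; exact hc ⟨fun g => absurd g h, fun g => absurd g h'⟩
    have a1 := lt_of_mem_cutSet hm hg h'
    have a2 := lt_of_not_mem_cutSet hg h
    rw [hxy] at a2
    linarith

lemma stabs_of_mem_sep (hm : 17 ≤ m) (hg : Good m R ρ) {x y : Bool × ZMod m} {c : ZMod m}
    (hc : c ∈ sepSet x y) : Stabs (cut ρ c) (pos R x) (pos R y) := by
  unfold sepSet at hc
  simp only [Finset.mem_filter, Finset.mem_univ, true_and] at hc
  by_cases h : c ∈ cutSet x
  · have h' : c ∉ cutSet y := fun h' => hc ⟨fun _ => h', fun _ => h⟩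
    exact stabs_of_signs (lt_of_mem_cutSet hm hg h) (lt_of_not_mem_cutSet hg h')
  · have h' : c ∈ cutSet y := by
      by_contra h'; exact hc ⟨fun g => absurd g h, fun g => absurd g h'⟩
    exact stabs_symm (stabs_of_signs (lt_of_mem_cutSet hm hg h') (lt_of_not_mem_cutSet hg h))

open Classical in
lemma sep_card_le (hm : 17 ≤ m) (hg : Good m R ρ) (x y : Bool × ZMod m) :
    (sepSet x y).card ≤
      ∑ c : ZMod m, (if Stabs (cut ρ c) (pos R x) (pos R y) then 1 else 0) := by
  rw [← Finset.card_filter]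
  apply Finset.card_le_card
  intro c hc
  rw [Finset.mem_filter]
  exact ⟨Finset.mem_univ _, stabs_of_mem_sep hm hg hc⟩

open Classical in
lemma sum_stab_lower (hm : 17 ≤ m) (hg : Good m R ρ) : ∀ (l : List (Bool × ZMod m))
    (x : Bool × ZMod m), (x :: l).Nodup →
    2 * l.length + (if ∃ y ∈ l, y.1 ≠ x.1 then 4 else 0) ≤
      ∑ c : ZMod m, stabCount (cut ρ c) ((x :: l).map (pos R)) := by
  intro l
  induction l with
  | nil => intro x _; simp
  | cons y l ih =>
    intro x hnd
    have hxy : x ≠ y := by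
      rintro rfl
      simp at hnd
    have hih := ih y (List.nodup_cons.mp hnd).2
    have hsum : ∑ c : ZMod m, stabCount (cut ρ c) ((x :: y :: l).map (pos R)) =
        ∑ c : ZMod m, (if Stabs (cut ρ c) (pos R x) (pos R y) then 1 else 0) +
        ∑ c : ZMod m, stabCount (cut ρ c) ((y :: l).map (pos R)) := by
      rw [← Finset.sum_add_distrib]
      rfl
    rw [hsum]
    have h1 := sep_card_le hm hg x y
    have h2 := two_le_sep hm hxy
    by_cases hb : x.1 = y.1
    · have h3 : (∃ z ∈ y :: l, z.1 ≠ x.1) ↔ (∃ z ∈ l, z.1 ≠ y.1) := by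
        constructor
        · rintro ⟨z, hz, hzx⟩
          rw [List.mem_cons] at hz
          rcases hz with rfl | hz
          · exact absurd hb.symm hzx
          · exact ⟨z, hz, by rwa [← hb]⟩
        · rintro ⟨z, hz, hzy⟩
          exact ⟨z, List.mem_cons_of_mem _ hz, by rwa [hb]⟩
      simp only [h3, List.length_cons]
      omega
    · have h3 := six_le_sep' hm hb
      simp only [List.length_cons]
      have h4 : (if ∃ z ∈ y :: l, z.1 ≠ x.1 then 4 else 0) ≤ 4 := by
        split_ifs <;> omega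
      omega

/-- The point set. -/
noncomputable def pts (m : ℕ) [NeZero m] (R : ℝ) : Finset Plane :=
  Finset.univ.image (pos R : Bool × ZMod m → Plane)

lemma isLine_cut (c : ZMod m) : IsLine (cut ρ c) := by
  refine ⟨Real.cos (ang c), Real.sin (ang c), ρ, ?_, rfl⟩
  by_contra h
  push Not at h
  have := Real.sin_sq_add_cos_sq (ang c)
  rw [h.1, h.2] at this
  norm_num at this

lemma exists_line (hm : 17 ≤ m) (hg : Good m R ρ) {l : List Plane}
    (hl : IsSpanningPath (pts m R) l) : ∃ L, IsLine L ∧ 5 ≤ stabCount L l := by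
  classical
  obtain ⟨hnd, hmem⟩ := hl
  obtain ⟨l', rfl⟩ : ∃ l' : List (Bool × ZMod m), l'.map (pos R) = l := by
    have : ∀ p ∈ l, ∃ x : Bool × ZMod m, pos R x = p := by
      intro p hp
      have := (hmem p).mp hp
      unfold pts at this
      rw [Finset.mem_image] at this
      obtain ⟨x, _, hx⟩ := this
      exact ⟨x, hx⟩
    clear hnd hmem
    induction l with
    | nil => exact ⟨[], rfl⟩
    | cons p l ih =>
      obtain ⟨l', hl'⟩ := ih (fun q hq => this q (List.mem_cons_of_mem _ hq))
      obtain ⟨x, hx⟩ := this p (List.mem_cons_self)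
      exact ⟨x :: l', by rw [List.map_cons, hx, hl']⟩
  have hinj := pos_injective hm hg
  have hnd' : l'.Nodup := List.Nodup.of_map _ hnd
  have hall : ∀ x, x ∈ l' := by
    intro x
    have h1 : pos R x ∈ pts m R := Finset.mem_image_of_mem _ (Finset.mem_univ x)
    have h2 := (hmem _).mpr h1
    rw [List.mem_map] at h2
    obtain ⟨y, hy, hxy⟩ := h2
    rw [← hinj hxy]
    exact hy
  have hlen : l'.length = 2 * m := by
    rw [← List.toFinset_card_of_nodup hnd']
    have : l'.toFinset = Finset.univ := by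
      ext x
      simp [hall x]
    rw [this, Finset.card_univ, Fintype.card_prod, ZMod.card]
    rfl
  cases l' with
  | nil => simp at hlen; omega
  | cons x l'' =>
    have hlow := sum_stab_lower hm hg l'' x hnd'
    have hmix : ∃ y ∈ l'', y.1 ≠ x.1 := by
      have h1 := hall (!x.1, x.2)
      rw [List.mem_cons] at h1
      rcases h1 with h1 | h1
      · have := congrArg Prod.fst h1
        simp at this
      · exact ⟨_, h1, by simp⟩
    rw [if_pos hmix] at hlow
    simp only [List.length_cons] at hlen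
    by_contra hcon
    push Not at hcon
    have hup : ∑ c : ZMod m, stabCount (cut ρ c) ((x :: l'').map (pos R)) ≤
        ∑ _c : ZMod m, 4 := by
      apply Finset.sum_le_sum
      intro c _
      have := hcon (cut ρ c) (isLine_cut c)
      omega
    rw [Finset.sum_const, Finset.card_univ, ZMod.card, smul_eq_mul] at hup
    omega

lemma exists_spanning (S : Finset Plane) : IsSpanningPath S S.toList :=
  ⟨S.nodup_toList, fun p => by rw [Finset.mem_toList]⟩

lemma five_le_pathStab (hm : 17 ≤ m) (hg : Good m R ρ) : 5 ≤ pathStab (pts m R) := by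
  unfold pathStab
  apply le_csInf
  · exact ⟨_, (pts m R).toList, exists_spanning _, fun L _ => stabCount_le_length L _⟩
  · rintro k ⟨l, hl, hk⟩
    obtain ⟨L, hL, h5⟩ := exists_line hm hg hl
    exact h5.trans (hk L hL)

/-! ### Small subsets -/

lemma exists_free_block (hm : 17 ≤ m) (hg : Good m R ρ) {N : ℕ} (hN : 3 * (N + 1) ≤ m)
    {T : Finset Plane} (hT : T.card ≤ N) :
    ∃ b : ℕ, ∀ k : ℕ, k < 3 → ∀ bo : Bool, pos R (bo, ((3 * b + k : ℕ) : ZMod m)) ∉ T := by
  by_contra hcon
  push Not at hcon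
  choose f hf g hg' using hcon
  have hinj : Set.InjOn (fun b : ℕ => pos R (g b, ((3 * b + f b : ℕ) : ZMod m)))
      (Finset.range (N + 1) : Set ℕ) := by
    intro b hb b' hb' h
    simp only [Finset.coe_range, Set.mem_Iio] at hb hb'
    have h1 := congrArg Prod.snd (pos_injective hm hg h)
    simp only at h1
    have h2 := hf b
    have h3 := hf b'
    have h4 := congrArg ZMod.val h1
    rw [ZMod.val_natCast_of_lt (by omega), ZMod.val_natCast_of_lt (by omega)] at h4
    omega
  have hmaps : ∀ b ∈ Finset.range (N + 1),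
      pos R (g b, ((3 * b + f b : ℕ) : ZMod m)) ∈ T := fun b _ => hg' b
  have := Finset.card_le_card_of_injOn _ hmaps hinj
  rw [Finset.card_range] at this
  omega

lemma pathStab_small (hm : 17 ≤ m) (hg : Good m R ρ) {N : ℕ} (hN : 3 * (N + 1) ≤ m)
    {T : Finset Plane} (hTS : T ⊆ pts m R) (hT : T.card ≤ N) : pathStab T ≤ 4 := by
  classical
  obtain ⟨b, hb⟩ := exists_free_block hm hg hN hT
  have hm' : (17 : ℝ) ≤ m := by exact_mod_cast hm
  have hm0 : (0 : ℝ) < m := by linarith
  set d := 2 * Real.pi / m with hd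
  have hd0 : 0 < d := by have := Real.pi_pos; positivity
  have hdm : d * m = 2 * Real.pi := by rw [hd]; field_simp
  have hd1 : d * 17 ≤ 2 * Real.pi := by nlinarith
  set fo : ℕ → Plane := fun t => pt R (((3 * b + 3 + t : ℕ) : ℝ) * d) with hfo
  set fi : ℕ → Plane := fun t => pt 1 (((3 * b + 3 + t : ℕ) : ℝ) * d) with hfi
  set M := m - 3 with hM
  set A := (List.range M).map fo with hA
  set B := ((List.range M).map fi).reverse with hB
  set l := ((A ++ B).filter (fun p => decide (p ∈ T))).dedup with hl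
  have hpt : ∀ (s : ℝ) (t : ℕ), pt s ((t : ℝ) * d) = pt s (ang (t : ZMod m)) := by
    intro s t
    have h := cos_int (m := m) (t : ℤ) 0
    rw [zero_add, zero_add] at h
    unfold pt
    rw [hd]
    have e1 : (((t : ℤ) : ℝ)) = (t : ℝ) := by norm_cast
    have e2 : (((t : ℤ) : ZMod m)) = (t : ZMod m) := by norm_cast
    rw [e1, e2] at h
    rw [h.1, h.2]
  have hspan : IsSpanningPath T l := by
    refine ⟨List.nodup_dedup _, fun p => ?_⟩
    rw [hl, List.mem_dedup, List.mem_filter, decide_eq_true_eq]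
    refine ⟨fun h => h.2, fun hp => ⟨?_, hp⟩⟩
    have h1 := hTS hp
    unfold pts at h1
    rw [Finset.mem_image] at h1
    obtain ⟨⟨bo, i⟩, _, rfl⟩ := h1
    set t := (i - ((3 * b + 3 : ℕ) : ZMod m)).val with ht
    have htm : t < m := ZMod.val_lt _
    have hti : i = ((3 * b + 3 + t : ℕ) : ZMod m) := by
      rw [Nat.cast_add, ht, ZMod.natCast_zmod_val]
      ring
    have htM : t < M := by
      by_contra hlt
      push Not at hlt
      apply hb (t + 3 - m) (by omega) bo
      have : ((3 * b + (t + 3 - m) : ℕ) : ZMod m) = i := by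
        rw [hti]
        have e : 3 * b + 3 + t = 3 * b + (t + 3 - m) + m := by omega
        rw [e, Nat.cast_add (3 * b + (t + 3 - m)) m, ZMod.natCast_self, add_zero]
      rw [this]
      exact hp
    rw [List.mem_append]
    cases bo
    · right
      rw [hB, List.mem_reverse, List.mem_map]
      refine ⟨t, List.mem_range.mpr htM, ?_⟩
      rw [hfi]
      simp only
      rw [hpt, ← hti]
      simp [pos, rad]
    · left
      rw [hA, List.mem_map]
      refine ⟨t, List.mem_range.mpr htM, ?_⟩
      rw [hfo]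
      simp only
      rw [hpt, ← hti]
      simp [pos, rad]
  unfold pathStab
  apply Nat.sInf_le
  refine ⟨l, hspan, ?_⟩
  rintro L ⟨a, b', c, hab, rfl⟩
  by_contra hcon
  push Not at hcon
  -- the alternating sublist
  have hlne : l ≠ [] := by
    intro h
    rw [h] at hcon
    simp [stabCount] at hcon
  obtain ⟨p, l0, hpl⟩ : ∃ p l0, l = p :: l0 := List.exists_cons_of_ne_nil hlne
  have hchain : (p :: l0).IsChain (fun x y => Stabs {q | a * q.1 + b' * q.2 = c} x y →
      ¬ (c ≤ a * x.1 + b' * x.2 ↔ c ≤ a * y.1 + b' * y.2)) := by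
    have hnd : (p :: l0).Nodup := by rw [← hpl]; exact hspan.1
    have h1 : (p :: l0).IsChain (fun x y => x ≠ y) := List.Pairwise.isChain hnd
    exact h1.imp (fun x y hxy hs => not_iff_of_stabs hxy hs)
  obtain ⟨h, t, hsub, hlen, halt, _⟩ := exists_alt _ (fun x => c ≤ a * x.1 + b' * x.2) l0 p hchain
  rw [hpl] at hcon
  have hsub' : (h :: t).Sublist (A ++ B) := by
    rw [← hpl] at hsub
    exact (hsub.trans (List.dedup_sublist _)).trans List.filter_sublist
  obtain ⟨l1, l2, hl12, hs1, hs2⟩ := List.sublist_append_iff.mp hsub'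
  have hlen' : 6 ≤ (l1 ++ l2).length := by
    rw [← hl12, List.length_cons]; omega
  rw [hl12] at halt
  rw [hA, List.sublist_map_iff] at hs1
  obtain ⟨ts, hts, rfl⟩ := hs1
  have hs2' : l2.reverse.Sublist ((List.range M).map fi) := by
    rw [← List.reverse_reverse ((List.range M).map fi), List.reverse_sublist]
    exact hs2
  rw [List.sublist_map_iff] at hs2'
  obtain ⟨us, hus, hl2⟩ := hs2'
  have hl2' : l2 = (us.map fi).reverse := by rw [← hl2, List.reverse_reverse]
  subst hl2'
  have hpt1 : ts.Pairwise (· < ·) := List.Pairwise.sublist hts List.pairwise_lt_range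
  have hpt2 : us.Pairwise (· < ·) := List.Pairwise.sublist hus List.pairwise_lt_range
  have hmt : ∀ x ∈ ts, x < M := fun x hx => List.mem_range.mp (hts.subset hx)
  have hmu : ∀ x ∈ us, x < M := fun x hx => List.mem_range.mp (hus.subset hx)
  clear hts hus hs2 hl2
  have halt1 : (ts.map fo).IsChain (fun x y =>
      ¬ (c ≤ a * x.1 + b' * x.2 ↔ c ≤ a * y.1 + b' * y.2)) := halt.left_of_append
  have halt2 : ((us.map fi).reverse).IsChain (fun x y =>
      ¬ (c ≤ a * x.1 + b' * x.2 ↔ c ≤ a * y.1 + b' * y.2)) := halt.right_of_append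
  have halt2' : (us.map fi).IsChain (fun x y =>
      ¬ (c ≤ a * x.1 + b' * x.2 ↔ c ≤ a * y.1 + b' * y.2)) := by
    rw [List.isChain_reverse] at halt2
    exact halt2.imp (fun x y hxy hiff => hxy hiff.symm)
  have hangle : ∀ x y : ℕ, x < y → ((3 * b + 3 + x : ℕ) : ℝ) * d < ((3 * b + 3 + y : ℕ) : ℝ) * d := by
    intro x y hxy
    apply mul_lt_mul_of_pos_right _ hd0
    exact_mod_cast (by omega : 3 * b + 3 + x < 3 * b + 3 + y)
  have hangle2 : ∀ x y : ℕ, y < M →
      ((3 * b + 3 + y : ℕ) : ℝ) * d < ((3 * b + 3 + x : ℕ) : ℝ) * d + 2 * Real.pi := by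
    intro x y hy
    rw [← hdm]
    have h1 : ((3 * b + 3 + y : ℕ) : ℝ) < ((3 * b + 3 + x : ℕ) : ℝ) + m := by
      exact_mod_cast (by omega : 3 * b + 3 + y < 3 * b + 3 + x + m)
    nlinarith
  have hfour : ∀ (s : ℝ) (vs : List ℕ), vs.Pairwise (· < ·) → (∀ x ∈ vs, x < M) →
      (vs.map (fun t => pt s (((3 * b + 3 + t : ℕ) : ℝ) * d))).IsChain (fun x y =>
      ¬ (c ≤ a * x.1 + b' * x.2 ↔ c ≤ a * y.1 + b' * y.2)) → vs.length ≤ 3 := by
    intro s vs hp hmv hc
    by_contra hgt
    push Not at hgt
    match vs, hp, hmv, hc, hgt with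
    | v0 :: v1 :: v2 :: v3 :: vs', hp, hmv, hc, _ =>
      simp only [List.map_cons, List.isChain_cons_cons] at hc
      simp only [List.pairwise_cons, List.mem_cons, forall_eq_or_imp] at hp
      have h3 : v3 < M := hmv v3 (by simp)
      exact no_alt_four (hangle _ _ hp.1.1) (hangle _ _ hp.2.1.1) (hangle _ _ hp.2.2.1.1)
        (hangle2 v0 v3 h3) hc.1 hc.2.1 hc.2.2.1
  have k1 := hfour R ts hpt1 hmt halt1
  have k2 := hfour 1 us hpt2 hmu halt2'
  rw [List.length_append, List.length_map, List.length_reverse, List.length_map] at hlen'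
  have k3 : ts.length = 3 := by omega
  have k4 : us.length = 3 := by omega
  obtain ⟨t0, t1, t2, rfl⟩ := List.length_eq_three.mp k3
  obtain ⟨u0, u1, u2, rfl⟩ := List.length_eq_three.mp k4
  simp only [List.map_cons, List.map_nil, List.reverse_cons, List.reverse_nil, List.nil_append,
    List.cons_append, List.isChain_cons_cons] at halt
  simp only [List.pairwise_cons, List.mem_cons, forall_eq_or_imp] at hpt1 hpt2
  have ht2 : t2 < M := hmt t2 (by simp)
  have hu2 : u2 < M := hmu u2 (by simp)
  have hMm : ((M : ℕ) : ℝ) + 3 = m := by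
    exact_mod_cast (by omega : M + 3 = m)
  have hlow : ∀ x : ℕ, ((3 * b + 3 : ℕ) : ℝ) * d ≤ ((3 * b + 3 + x : ℕ) : ℝ) * d := by
    intro x
    apply mul_le_mul_of_nonneg_right _ hd0.le
    exact_mod_cast (by omega : 3 * b + 3 ≤ 3 * b + 3 + x)
  have hhigh : ∀ x : ℕ, x < M → ((3 * b + 3 + x : ℕ) : ℝ) * d ≤
      ((3 * b + 3 : ℕ) : ℝ) * d + 2 * Real.pi - 4 * d := by
    intro x hx
    have h1 : ((3 * b + 3 + x : ℕ) : ℝ) + 4 ≤ ((3 * b + 3 : ℕ) : ℝ) + m := by
      exact_mod_cast (by omega : 3 * b + 3 + x + 4 ≤ 3 * b + 3 + m)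
    nlinarith
  have hpi := Real.pi_pos
  refine no_alt_six (a := a) (b := b') (c := c) (R := R) (D := 4 * d)
    (θ0 := ((3 * b + 3 : ℕ) : ℝ) * d) (θ1 := ((3 * b + 3 : ℕ) : ℝ) * d + 2 * Real.pi - 4 * d)
    hg.h5 (by linarith) (lt_trans hg.h4 hg.h2) (by linarith)
    (hangle _ _ hpt2.1.1) (hangle _ _ hpt2.2.1.1) (hangle _ _ hpt1.1.1) (hangle _ _ hpt1.2.1.1)
    (hlow _) (hhigh _ hu2) (hlow _) (hhigh _ ht2)
    halt.1 halt.2.1 halt.2.2.1 halt.2.2.2.1 halt.2.2.2.2.1

end construction

/-- **Main theorem.** For every `N` there is a finite set `S` of points of the plane with path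
stabbing number at least `5` all of whose subsets with at most `N` points have path stabbing
number less than `5`.  Consequently the path stabbing number does not have finite obstacle
size. -/
theorem result :
    (∀ N : ℕ, ∃ S : Finset Plane, 5 ≤ pathStab S ∧
      ∀ T : Finset Plane, T ⊆ S → T.card ≤ N → pathStab T < 5) ∧
    ¬ FiniteObstacleSize := by
  have main : ∀ N : ℕ, ∃ S : Finset Plane, 5 ≤ pathStab S ∧
      ∀ T : Finset Plane, T ⊆ S → T.card ≤ N → pathStab T < 5 := by
    intro N
    have hm : 17 ≤ 3 * (N + 1) + 17 := by omega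
    have : NeZero (3 * (N + 1) + 17) := ⟨by omega⟩
    obtain ⟨R, ρ, hg⟩ := exists_good hm
    refine ⟨pts (3 * (N + 1) + 17) R, five_le_pathStab hm hg, ?_⟩
    intro T hTS hT
    have := pathStab_small hm hg (N := N) (by omega) hTS hT
    omega
  refine ⟨main, ?_⟩
  intro hfin
  obtain ⟨N, hN⟩ := hfin 5 (by norm_num)
  obtain ⟨S, hS, hT⟩ := main N
  -- a minimal subset is an obstacle
  classical
  have hne : (S.powerset.filter (fun T => 5 ≤ pathStab T)).Nonempty :=
    ⟨S, by simp [hS]⟩
  obtain ⟨S', hS', hmin⟩ := Finset.exists_min_image _ Finset.card hne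
  rw [Finset.mem_filter, Finset.mem_powerset] at hS'
  have hobs : IsObstacle 5 S' := by
    refine ⟨hS'.2, ?_⟩
    intro T hT'
    by_contra hge
    push Not at hge
    have h1 : T ∈ S.powerset.filter (fun T => 5 ≤ pathStab T) := by
      rw [Finset.mem_filter, Finset.mem_powerset]
      exact ⟨hT'.subset.trans hS'.1, hge⟩
    have h2 := hmin T h1
    have h3 := Finset.card_lt_card hT'
    omega
  have h1 := hN S' hobs
  have h2 := hT S' hS'.1 h1
  have h3 := hS'.2
  omega

end Pool.Agent.Results.MP_da61b8_co.NoFiniteObstacle
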